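import Mathlib

/-! # MP_81d777_co, Q1 (negated form): blow-ups of the hexagon are connected graphs all of whose
minimal zero forcing sets propagate in exactly one round, but they are not standard fast joins. -/

namespace Pool.Agent.Results.MP_81d777_co.HexagonBlowUp

open Set

variable {V : Type} (G : SimpleGraph V)

/-- the white vertices that some blue vertex can force when exactly `B` is blue -/
def forcedBy (B : Set V) : Set V :=
  {w | w ∉ B ∧ ∃ u ∈ B, G.Adj u w ∧ ∀ x, G.Adj u x → x ∉ B → x = w}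

/-- `B^[i]` -/
def blue (B : Set V) : ℕ → Set V
  | 0 => B
  | i + 1 => blue B i ∪ forcedBy G (blue B i)

/-- `B^(i)` -/
def newBlue (B : Set V) : ℕ → Set V
  | 0 => B
  | i + 1 => forcedBy G (blue G B i)

/-- the largest `p` with `B^(p)` nonempty -/
noncomputable def lastRound (B : Set V) : ℕ := sSup {i | (newBlue G B i).Nonempty}

/-- forcing sets: `B^[p] = V(G)` -/
def IsForcing (B : Set V) : Prop := blue G B (lastRound G B) = univ

/-- inclusion-minimal forcing sets -/
def IsMinimalForcing (B : Set V) : Prop := IsForcing G B ∧ ∀ B' ⊂ B, ¬ IsForcing G B'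

/-- the upper standard propagation time -/
noncomputable def upperPT : ℕ := sSup {p | ∃ B, IsMinimalForcing G B ∧ p = lastRound G B}

/-- `G` is complete, or a join of `t ≥ 2` parts, each of which is edgeless with at least two
vertices, or the disjoint union of two complete graphs with at least two vertices each. -/
def IsStandardFastJoin : Prop :=
  G = ⊤ ∨ ∃ (t : ℕ) (f : V → Fin t), 2 ≤ t ∧ (∀ u v, f u ≠ f v → G.Adj u v) ∧
    ∀ i, (2 ≤ {v | f v = i}.ncard ∧ ∀ u v, f u = i → f v = i → ¬ G.Adj u v) ∨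
      ∃ S T : Set V, {v | f v = i} = S ∪ T ∧ Disjoint S T ∧ 2 ≤ S.ncard ∧ 2 ≤ T.ncard ∧
        (∀ u ∈ S, ∀ v ∈ S, u ≠ v → G.Adj u v) ∧ (∀ u ∈ T, ∀ v ∈ T, u ≠ v → G.Adj u v) ∧
        ∀ u ∈ S, ∀ v ∈ T, ¬ G.Adj u v

/-- The blow-up of the 6-cycle: every vertex of the cycle is replaced by `s` independent
vertices. -/
def hexBlow (s : ℕ) : SimpleGraph (ZMod 6 × Fin s) where
  Adj u v := v.1 = u.1 + 1 ∨ u.1 = v.1 + 1
  symm := ⟨fun _ _ h => h.symm⟩
  loopless := ⟨fun u h => by
    have h1 : u.1 = u.1 + 1 := by rcases h with h | h <;> exact h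
    revert h1
    generalize u.1 = x
    revert x
    decide⟩

variable {G}

theorem blue_subset (B : Set V) (i : ℕ) : B ⊆ blue G B i := by
  induction i with
  | zero => exact subset_rfl
  | succ i ih => exact ih.trans subset_union_left

theorem blue_mono (B : Set V) {i j : ℕ} (h : i ≤ j) : blue G B i ⊆ blue G B j := by
  induction j, h using Nat.le_induction with
  | base => exact subset_rfl
  | succ j _ ih => exact ih.trans subset_union_left

theorem forced_empty_of_univ {B : Set V} (h : B = univ) : forcedBy G B = ∅ := by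
  subst h
  ext w
  simp [forcedBy]

/-- A set of white vertices in which no outside vertex has exactly one neighbour stays white. -/
theorem stays_white {B F : Set V} (hF : Disjoint B F)
    (hfort : ∀ u, u ∉ F → ∀ w ∈ F, G.Adj u w → ∃ x ∈ F, x ≠ w ∧ G.Adj u x) (i : ℕ) :
    Disjoint (blue G B i) F := by
  induction i with
  | zero => exact hF
  | succ i ih =>
    rw [blue, disjoint_union_left]
    refine ⟨ih, ?_⟩
    rw [Set.disjoint_left]
    rintro w ⟨_, u, hu, huw, hall⟩ hwF
    obtain ⟨x, hxF, hxw, hux⟩ := hfort u (Set.disjoint_left.1 ih hu) w hwF huw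
    exact hxw (hall x hux (Set.disjoint_right.1 ih hxF))

section hex

variable {s : ℕ}

theorem adj_iff {u v : ZMod 6 × Fin s} :
    (hexBlow s).Adj u v ↔ v.1 = u.1 + 1 ∨ u.1 = v.1 + 1 := Iff.rfl

/-- at most one white vertex in every class -/
theorem one_white {B : Set (ZMod 6 × Fin s)} (h : IsForcing (hexBlow s) B) {i : ZMod 6}
    {a b : Fin s} (ha : (i, a) ∉ B) (hb : (i, b) ∉ B) : a = b := by
  by_contra hab
  have hd : Disjoint B {(i, a), (i, b)} := by
    rw [Set.disjoint_left]
    rintro x hx (rfl | hx')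
    · exact ha hx
    · rw [Set.mem_singleton_iff] at hx'
      subst hx'
      exact hb hx
  have := stays_white (G := hexBlow s) hd (by
    rintro u _ w (rfl | hw) huw
    · refine ⟨(i, b), Or.inr rfl, fun h => hab (congrArg Prod.snd h).symm, huw⟩
    · rw [Set.mem_singleton_iff] at hw
      subst hw
      exact ⟨(i, a), Or.inl rfl, fun h => hab (congrArg Prod.snd h), huw⟩)
    (lastRound (hexBlow s) B)
  rw [h] at this
  exact (Set.disjoint_left.1 this) (mem_univ _) (Or.inl rfl)

/-- one of the three classes of each parity has no white vertex -/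
theorem free_class {B : Set (ZMod 6 × Fin s)} (h : IsForcing (hexBlow s) B) {i : ZMod 6}
    {a b c : Fin s} (ha : (i, a) ∉ B) (hb : (i + 2, b) ∉ B) (hc : (i + 4, c) ∉ B) : False := by
  have hd : Disjoint B {(i, a), (i + 2, b), (i + 4, c)} := by
    rw [Set.disjoint_left]
    rintro x hx (rfl | rfl | hx')
    · exact ha hx
    · exact hb hx
    · rw [Set.mem_singleton_iff] at hx'
      subst hx'
      exact hc hx
  have key : ∀ i u : ZMod 6, (i = u + 1 ∨ u = i + 1) → (i + 2 = u + 1 ∨ u = i + 2 + 1) ∨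
      (i + 4 = u + 1 ∨ u = i + 4 + 1) := by decide
  have key2 : ∀ i u : ZMod 6, (i + 2 = u + 1 ∨ u = i + 2 + 1) → (i = u + 1 ∨ u = i + 1) ∨
      (i + 4 = u + 1 ∨ u = i + 4 + 1) := by decide
  have key3 : ∀ i u : ZMod 6, (i + 4 = u + 1 ∨ u = i + 4 + 1) → (i = u + 1 ∨ u = i + 1) ∨
      (i + 2 = u + 1 ∨ u = i + 2 + 1) := by decide
  have n1 : ∀ i : ZMod 6, i + 2 ≠ i := by decide
  have n2 : ∀ i : ZMod 6, i + 4 ≠ i := by decide
  have n3 : ∀ i : ZMod 6, i + 4 ≠ i + 2 := by decide
  have := stays_white (G := hexBlow s) hd (by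
    rintro u _ w (rfl | rfl | hw) huw
    · rcases key i u.1 huw with h1 | h1
      · exact ⟨(i + 2, b), Or.inr (Or.inl rfl), fun h => n1 i (congrArg Prod.fst h), h1⟩
      · exact ⟨(i + 4, c), Or.inr (Or.inr rfl), fun h => n2 i (congrArg Prod.fst h), h1⟩
    · rcases key2 i u.1 huw with h1 | h1
      · exact ⟨(i, a), Or.inl rfl, fun h => n1 i (congrArg Prod.fst h).symm, h1⟩
      · exact ⟨(i + 4, c), Or.inr (Or.inr rfl), fun h => n3 i (congrArg Prod.fst h), h1⟩
    · rw [Set.mem_singleton_iff] at hw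
      subst hw
      rcases key3 i u.1 huw with h1 | h1
      · exact ⟨(i, a), Or.inl rfl, fun h => n2 i (congrArg Prod.fst h).symm, h1⟩
      · exact ⟨(i + 2, b), Or.inr (Or.inl rfl), fun h => n3 i (congrArg Prod.fst h).symm, h1⟩)
    (lastRound (hexBlow s) B)
  rw [h] at this
  exact (Set.disjoint_left.1 this) (mem_univ _) (Or.inl rfl)

/-- all white vertices are forced in the first round -/
theorem one_round (hs : 2 ≤ s) {B : Set (ZMod 6 × Fin s)}
    (h1 : ∀ (i : ZMod 6) (a b : Fin s), (i, a) ∉ B → (i, b) ∉ B → a = b)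
    (h3 : ∀ (i : ZMod 6) (a b c : Fin s), (i, a) ∉ B → (i + 2, b) ∉ B → (i + 4, c) ∉ B → False) :
    forcedBy (hexBlow s) B = Bᶜ := by
  have hblue : ∀ j : ZMod 6, ∃ x : Fin s, (j, x) ∈ B := by
    intro j
    by_contra hcon
    push Not at hcon
    have := h1 j ⟨0, by omega⟩ ⟨1, by omega⟩ (hcon _) (hcon _)
    simp at this
  ext ⟨i, a⟩
  constructor
  · exact fun h => h.1
  · intro hw
    refine ⟨hw, ?_⟩
    by_cases hc : ∃ b, (i + 2, b) ∉ B
    · obtain ⟨b, hb⟩ := hc
      -- class i+4 has no white vertex: use class i+5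
      obtain ⟨x, hx⟩ := hblue (i + 5)
      refine ⟨(i + 5, x), hx, ?_, ?_⟩
      · rw [adj_iff]
        left
        change i = i + 5 + 1
        have : ∀ i : ZMod 6, i = i + 5 + 1 := by decide
        exact this i
      · rintro ⟨j, c⟩ hadj hj
        rw [adj_iff] at hadj
        have key : ∀ i j : ZMod 6, (j = i + 5 + 1 ∨ i + 5 = j + 1) → j = i ∨ j = i + 4 := by
          decide
        rcases key i j hadj with rfl | rfl
        · rw [h1 _ c a hj hw]
        · exact (h3 i a b c hw hb hj).elim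
    · push Not at hc
      obtain ⟨x, hx⟩ := hblue (i + 1)
      refine ⟨(i + 1, x), hx, ?_, ?_⟩
      · rw [adj_iff]
        right
        rfl
      · rintro ⟨j, c⟩ hadj hj
        rw [adj_iff] at hadj
        have key : ∀ i j : ZMod 6, (j = i + 1 + 1 ∨ i + 1 = j + 1) → j = i ∨ j = i + 2 := by
          decide
        rcases key i j hadj with rfl | rfl
        · rw [h1 _ c a hj hw]
        · exact (hj (hc c)).elim

theorem lastRound_eq_one {V : Type} {G : SimpleGraph V} {B : Set V} (hB : B ≠ univ)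
    (h : forcedBy G B = Bᶜ) : lastRound G B = 1 := by
  have hb1 : blue G B 1 = univ := by
    change B ∪ forcedBy G B = univ
    rw [h, union_compl_self]
  have hset : ∀ i, (newBlue G B i).Nonempty → i ≤ 1 := by
    intro i hi
    by_contra hlt
    obtain ⟨j, rfl⟩ : ∃ j, i = j + 1 := ⟨i - 1, by omega⟩
    have hj : blue G B j = univ := by
      apply eq_univ_of_univ_subset
      rw [← hb1]
      exact blue_mono B (by omega)
    change (forcedBy G (blue G B j)).Nonempty at hi
    rw [forced_empty_of_univ hj] at hi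
    exact hi.ne_empty rfl
  have h1 : (newBlue G B 1).Nonempty := by
    change (forcedBy G B).Nonempty
    rw [h]
    exact nonempty_compl.2 hB
  apply le_antisymm
  · exact csSup_le ⟨1, h1⟩ hset
  · exact le_csSup ⟨1, hset⟩ h1

theorem forcing_iff_last {V : Type} {G : SimpleGraph V} {B : Set V} (hB : B ≠ univ)
    (h : forcedBy G B = Bᶜ) : IsForcing G B := by
  unfold IsForcing
  rw [lastRound_eq_one hB h]
  change B ∪ forcedBy G B = univ
  rw [h, union_compl_self]

theorem pt_one (hs : 2 ≤ s) {B : Set (ZMod 6 × Fin s)} (h : IsForcing (hexBlow s) B)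
    (hB : B ≠ univ) : lastRound (hexBlow s) B = 1 :=
  lastRound_eq_one hB (one_round hs (fun _ _ _ ha hb => one_white h ha hb)
    (fun _ _ _ _ ha hb hc => free_class h ha hb hc))

theorem compl_singleton_forcing (hs : 2 ≤ s) (v : ZMod 6 × Fin s) :
    IsForcing (hexBlow s) {v}ᶜ := by
  refine forcing_iff_last (fun h => ?_) (one_round hs ?_ ?_)
  · have := h.symm ▸ mem_univ v
    exact this rfl
  · intro i a b ha hb
    rw [mem_compl_singleton_iff, not_not] at ha hb
    rw [← hb] at ha
    exact congrArg Prod.snd ha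
  · intro i a b c ha hb _
    rw [mem_compl_singleton_iff, not_not] at ha hb
    rw [← hb] at ha
    have h1 : i = i + 2 := congrArg Prod.fst ha
    have h2 : ∀ i : ZMod 6, i ≠ i + 2 := by decide
    exact h2 i h1

theorem exists_minimal (hs : 2 ≤ s) : ∃ B, IsMinimalForcing (hexBlow s) B := by
  classical
  have h0 : ∃ n, ∃ B : Set (ZMod 6 × Fin s), IsForcing (hexBlow s) B ∧ B.ncard = n :=
    ⟨_, _, compl_singleton_forcing hs (0, ⟨0, by omega⟩), rfl⟩
  obtain ⟨B, hB, hcard⟩ := Nat.find_spec h0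
  refine ⟨B, hB, fun B' hB' hf => ?_⟩
  have h1 : B'.ncard < B.ncard := Set.ncard_lt_ncard hB' (Set.toFinite B)
  exact Nat.find_min h0 (hcard ▸ h1) ⟨B', hf, rfl⟩

theorem minimal_ne_univ (hs : 2 ≤ s) {B : Set (ZMod 6 × Fin s)}
    (h : IsMinimalForcing (hexBlow s) B) : B ≠ univ := by
  rintro rfl
  refine h.2 {(0, ⟨0, by omega⟩)}ᶜ ?_ (compl_singleton_forcing hs _)
  rw [ssubset_univ_iff]
  intro h1
  have := h1.symm ▸ mem_univ ((0, ⟨0, by omega⟩) : ZMod 6 × Fin s)
  exact this rfl

theorem upperPT_eq (hs : 2 ≤ s) : upperPT (hexBlow s) = 1 := by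
  unfold upperPT
  have : {p | ∃ B, IsMinimalForcing (hexBlow s) B ∧ p = lastRound (hexBlow s) B} = {1} := by
    ext p
    constructor
    · rintro ⟨B, hB, rfl⟩
      exact pt_one hs hB.1 (minimal_ne_univ hs hB)
    · rintro rfl
      obtain ⟨B, hB⟩ := exists_minimal hs
      exact ⟨B, hB, (pt_one hs hB.1 (minimal_ne_univ hs hB)).symm⟩
  rw [this, csSup_singleton]

theorem connected (hs : 2 ≤ s) : (hexBlow s).Connected := by
  have key : ∀ (n : ℕ) (a b : Fin s), (hexBlow s).Reachable (0, a) (((n : ℕ) : ZMod 6) + 1, b) := by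
    intro n
    induction n with
    | zero =>
      intro a b
      refine SimpleGraph.Adj.reachable ?_
      rw [adj_iff]
      left
      simp
    | succ n ih =>
      intro a b
      refine (ih a a).trans (SimpleGraph.Adj.reachable ?_)
      rw [adj_iff]
      left
      change ((n + 1 : ℕ) : ZMod 6) + 1 = (n : ZMod 6) + 1 + 1
      push_cast
      ring
  have key2 : ∀ (a : Fin s) (v : ZMod 6 × Fin s), (hexBlow s).Reachable (0, a) v := by
    rintro a ⟨i, b⟩
    have h := key (i - 1).val a b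
    rw [ZMod.natCast_zmod_val] at h
    have e : i - 1 + 1 = i := by ring
    rwa [e] at h
  have : Nonempty (ZMod 6 × Fin s) := ⟨(0, ⟨0, by omega⟩)⟩
  refine SimpleGraph.Connected.mk ?_
  intro u v
  exact (key2 ⟨0, by omega⟩ u).symm.trans (key2 ⟨0, by omega⟩ v)

theorem not_join (hs : 2 ≤ s) : ¬ IsStandardFastJoin (hexBlow s) := by
  rintro (h | ⟨t, f, ht, hadj, hparts⟩)
  · have h1 : (hexBlow s).Adj (0, ⟨0, by omega⟩) (2, ⟨0, by omega⟩) := by
      rw [h]
      change ((0 : ZMod 6), (⟨0, _⟩ : Fin s)) ≠ (2, ⟨0, _⟩)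
      intro h2
      have h3 : (0 : ZMod 6) = 2 := congrArg Prod.fst h2
      exact absurd h3 (by decide)
    rw [adj_iff] at h1
    revert h1
    change ¬ ((2 : ZMod 6) = 0 + 1 ∨ (0 : ZMod 6) = 2 + 1)
    decide
  · have hf : ∀ (i j : ZMod 6) (a b : Fin s), ¬ (j = i + 1 ∨ i = j + 1) →
        f (i, a) = f (j, b) := by
      intro i j a b h
      by_contra hne
      exact h (hadj _ _ hne)
    have hconst : ∀ (i : ZMod 6) (b : Fin s), f (i, b) = f (0, ⟨0, by omega⟩) := by
      intro i b
      by_cases h0 : ¬ (0 = i + 1 ∨ i = 0 + 1)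
      · exact hf _ _ _ _ h0
      · have h3 : ¬ ((3 : ZMod 6) = i + 1 ∨ i = 3 + 1) := by
          revert h0
          revert i
          decide
        rw [hf i 3 b b h3]
        exact hf 3 0 _ _ (by decide)
    set c := f (0, ⟨0, by omega⟩) with hc
    obtain ⟨d, hd⟩ : ∃ d : Fin t, d ≠ c := by
      by_cases h : c = ⟨0, by omega⟩
      · exact ⟨⟨1, by omega⟩, by rw [h]; simp⟩
      · exact ⟨⟨0, by omega⟩, fun h' => h h'.symm⟩
    have hempty : {v | f v = d} = ∅ := by
      ext ⟨i, b⟩
      rw [mem_empty_iff_false, iff_false]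
      intro h
      have h' : f (i, b) = d := h
      exact hd (h'.symm.trans (hconst i b))
    rcases hparts d with ⟨h1, _⟩ | ⟨S, T, hST, _, hS, _⟩
    · rw [hempty, ncard_empty] at h1
      omega
    · rw [hempty] at hST
      have : S = ∅ := by
        apply eq_empty_of_subset_empty
        rw [hST]
        exact subset_union_left
      rw [this, ncard_empty] at hS
      omega

theorem card_le {B : Set (ZMod 6 × Fin s)} (h : IsForcing (hexBlow s) B) :
    6 * s - 4 ≤ B.ncard := by
  classical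
  have hfree : ∀ i : ZMod 6, ∃ j, (j = i ∨ j = i + 2 ∨ j = i + 4) ∧ ∀ a, (j, a) ∈ B := by
    intro i
    by_contra hcon
    push Not at hcon
    obtain ⟨a, ha⟩ := hcon i (Or.inl rfl)
    obtain ⟨b, hb⟩ := hcon (i + 2) (Or.inr (Or.inl rfl))
    obtain ⟨c, hc⟩ := hcon (i + 4) (Or.inr (Or.inr rfl))
    exact free_class h ha hb hc
  obtain ⟨j0, hj0, hB0⟩ := hfree 0
  obtain ⟨j1, hj1, hB1⟩ := hfree 1
  have hne : j0 ≠ j1 := by
    rcases hj0 with rfl | rfl | rfl <;> rcases hj1 with rfl | rfl | rfl <;> decide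
  have hinj : Set.InjOn Prod.fst (Bᶜ : Set (ZMod 6 × Fin s)) := by
    rintro ⟨i, a⟩ ha ⟨j, b⟩ hb hij
    change i = j at hij
    subst hij
    rw [one_white h ha hb]
  have hsub : Prod.fst '' (Bᶜ : Set (ZMod 6 × Fin s)) ⊆ (({j0, j1} : Finset (ZMod 6))ᶜ : Finset (ZMod 6)) := by
    rintro i ⟨⟨k, a⟩, ha, rfl⟩
    simp only [Finset.coe_compl, Finset.coe_insert, Finset.coe_singleton, mem_compl_iff,
      mem_insert_iff, mem_singleton_iff, not_or]
    constructor
    · rintro rfl
      exact ha (hB0 a)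
    · rintro rfl
      exact ha (hB1 a)
  have h4 : (Bᶜ).ncard ≤ 4 := by
    rw [← hinj.ncard_image]
    refine (Set.ncard_le_ncard hsub (Finset.finite_toSet _)).trans ?_
    rw [Set.ncard_coe_finset, Finset.card_compl, Finset.card_pair hne, ZMod.card]
  have h5 := Set.ncard_add_ncard_compl B
  rw [Nat.card_prod, Nat.card_zmod, Nat.card_fin] at h5
  omega

end hex

/-- **Counterexample to Q1.** For every `s ≥ 2` the blow-up of the 6-cycle is connected, has upper
standard propagation time 1, is not a standard fast join, and all its forcing sets have at least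
`6s - 4` vertices. -/
theorem result (s : ℕ) (hs : 2 ≤ s) :
    (hexBlow s).Connected ∧ upperPT (hexBlow s) = 1 ∧ ¬ IsStandardFastJoin (hexBlow s) ∧
      ∀ B, IsForcing (hexBlow s) B → 6 * s - 4 ≤ B.ncard :=
  ⟨connected hs, upperPT_eq hs, not_join hs, fun _ h => card_le h⟩

end Pool.Agent.Results.MP_81d777_co.HexagonBlowUp
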